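import Pool.Agent.Work.MP_3b70de_al.Defs
import Mathlib.Data.Matrix.Basic
import Mathlib.Data.ZMod.Basic

namespace Pool.Agent.Work.MP_3b70de_al

/-- `x` is a quantum solution of the binary linear system `M x = b` in the unital *-ring `B`. -/
def IsSol {m n : ℕ} (M : Matrix (Fin m) (Fin n) (ZMod 2)) (b : Fin m → ZMod 2)
    {B : Type} [Ring B] [StarRing B] (x : Fin n → B) : Prop :=
  (∀ i, star (x i) = x i) ∧ (∀ i, x i * x i = 1) ∧
  (∀ k i j, M k i = 1 → M k j = 1 → x i * x j = x j * x i) ∧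
  ∀ k, (List.ofFn fun i => x i ^ (M k i).val).prod = (-1) ^ (b k).val

/-- `(C, x)` is the universal unital C*-algebra of quantum solutions of `M x = b`, that is, the
quotient of the full group C*-algebra of the solution group by the relation `J = -1`. -/
def IsSolAlg {m n : ℕ} (M : Matrix (Fin m) (Fin n) (ZMod 2)) (b : Fin m → ZMod 2)
    {C : Type} [CStarAlgebra C] (x : Fin n → C) : Prop :=
  IsSol M b x ∧ ∀ (B : Type) [CStarAlgebra B] (y : Fin n → B), IsSol M b y →
    ∃! φ : C →⋆ₐ[ℂ] B, ∀ i, φ (x i) = y i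

end Pool.Agent.Work.MP_3b70de_al
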