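import Pool.Agent.Work.MP_3b70de_al.Rank

/-! Twenty-three orthogonal bases of six-space without an additive weight modulo three. -/

namespace Pool.Agent.Work.MP_3b70de_al

open Matrix

def rayL : List (List ℤ) := [[0, 0, 0, 0, 0, 1], [0, 0, 0, 0, 1, 0], [0, 0, 0, 1, 0, -1], [0, 0, 0, 1, 0, 0], [0, 0, 0, 1, 0, 1], [0, 0, 0, 1, 1, -1], [0, 0, 0, 1, 1, 1], [0, 0, 1, -1, 0, -1], [0, 0, 1, 0, -1, -1], [0, 0, 1, 0, 0, 0], [0, 0, 1, 0, 1, 1], [0, 0, 1, 1, -1, 0], [0, 0, 1, 1, 0, -1], [0, 0, 1, 1, 1, 0], [0, 1, -1, -1, 0, 0], [0, 1, -1, 0, 0, -1], [0, 1, -1, 1, 0, 0], [0, 1, 0, -1, -1, 0], [0, 1, 0, -1, 0, -1], [0, 1, 0, -1, 1, 0], [0, 1, 0, 0, -1, 1], [0, 1, 0, 0, 0, 0], [0, 1, 0, 1, 0, -1], [0, 1, 1, 0, -1, 0], [0, 1, 1, 0, 0, 1], [0, 1, 1, 0, 1, 0], [1, -1, 0, -1, 0, 0], [1, -1, 0, 0, -1, 0], [1, -1, 0, 0, 0, -1], [1, -1, 0, 0, 0, 0], [1, -1, 1, 0, 0, 0],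 [1, 0, -1, 0, -1, 0], [1, 0, -1, 0, 0, 1], [1, 0, -1, 1, 0, 0], [1, 0, 0, -1, 0, -1], [1, 0, 0, -1, 0, 1], [1, 0, 0, -1, 1, 0], [1, 0, 0, 0, 0, 0], [1, 0, 0, 0, 1, -1], [1, 0, 0, 0, 1, 1], [1, 0, 0, 1, -1, 0], [1, 0, 1, 0, -1, 0], [1, 0, 1, 0, 0, 1], [1, 1, 0, 0, 0, -1], [1, 1, 0, 0, 0, 0], [1, 1, 0, 0, 1, 0], [1, 1, 0, 1, 0, 0], [1, 1, 1, 0, 0, 0]]

def varL : List (List (Fin 48)) := [[5, 7, 10, 11, 29, 44], [0, 1, 3, 9, 29, 44], [0, 11, 16, 17, 25, 37], [3, 8, 15, 20, 25, 37], [0, 13, 16, 19, 23, 37], [0, 1, 14, 26, 33, 47], [1, 3, 15, 28, 32, 47], [5, 9, 21, 34, 39, 40], [6, 9, 21, 35, 38, 40], [3, 9, 20, 27, 39, 43], [1, 3, 24, 30, 32, 43], [3, 10, 21, 32, 38, 41], [0, 13, 21, 33, 36, 41], [1, 9, 18, 28, 35, 46], [0, 9, 17, 27, 36, 46], [3, 8, 21, 31, 38, 42], [1, 12, 21, 33, 34, 42], [2, 4, 23, 30, 31, 45], [0, 9, 17, 26, 40, 45], [1, 12, 16, 18,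 24, 37], [6, 9, 19, 20, 22, 37], [1, 2, 4, 9, 21, 37], [1, 7, 14, 22, 24, 37]]

def coefL : List (ZMod 3) := [1, 2, 2, 1, 2, 1, 2, 2, 2, 1, 2, 2, 1, 1, 2, 2, 1, 1, 2, 2, 1, 2, 2]

def ray (i : Fin 48) (a : Fin 6) : ℤ := (rayL.getD i.val []).getD a.val 0

def vr (j : Fin 23) (s : Fin 6) : Fin 48 := (varL.getD j.val []).getD s.val 0

def coef (j : Fin 23) : ZMod 3 := coefL.getD j.val 0

def wgt (i : Fin 48) : ℤ := 6 / ∑ a, ray i a * ray i a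

theorem vr_inj : ∀ j, Function.Injective (vr j) := by decide +kernel

theorem coef_zero : ∀ i, ∑ j, ∑ s, (if vr j s = i then coef j else 0) = 0 := by decide +kernel

theorem coef_sum : ∑ j, coef j = 1 := by decide +kernel

theorem wgt_spec : ∀ i, wgt i * ∑ a, ray i a * ray i a = 6 := by decide +kernel

theorem ray_orth : ∀ j s t, s ≠ t → ∑ a, ray (vr j s) a * ray (vr j t) a = 0 := by decide +kernel

theorem ray_sum : ∀ j a b, ∑ s, wgt (vr j s) * (ray (vr j s) a * ray (vr j s) b) =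
    if a = b then 6 else 0 := by decide +kernel

/-- the rank one projections -/
noncomputable def Qm (i : Fin 48) : Matrix (Fin 6) (Fin 6) ℂ :=
  Matrix.of fun a b => (wgt i : ℂ) * (ray i a * ray i b) / 6

theorem Qm_mul (i k : Fin 48) (a b : Fin 6) : (Qm i * Qm k) a b =
    (wgt i : ℂ) * wgt k * ray i a * ray k b * ((∑ c, ray i c * ray k c : ℤ) : ℂ) / 36 := by
  simp only [Qm, mul_apply, of_apply, Int.cast_sum, Int.cast_mul, Finset.mul_sum, Finset.sum_div]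
  exact Finset.sum_congr rfl fun c _ => by ring

theorem Qm_idem (i : Fin 48) : Qm i * Qm i = Qm i := by
  ext a b
  have h : (wgt i : ℂ) * ((∑ c, ray i c * ray i c : ℤ) : ℂ) = 6 := by exact_mod_cast wgt_spec i
  rw [Qm_mul, Qm, of_apply]
  linear_combination (wgt i : ℂ) * ray i a * ray i b / 36 * h

theorem Qm_orth (j : Fin 23) {s t : Fin 6} (h : s ≠ t) : Qm (vr j s) * Qm (vr j t) = 0 := by
  ext a b
  rw [Qm_mul, ray_orth j s t h]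
  simp

theorem Qm_star (i : Fin 48) : star (Qm i) = Qm i := by
  ext a b
  simp [Qm, star_apply, mul_comm]

theorem Qm_sum (j : Fin 23) : ∑ s, Qm (vr j s) = 1 := by
  ext a b
  have h := congrArg (Int.cast : ℤ → ℂ) (ray_sum j a b)
  simp only [Matrix.sum_apply, Qm, of_apply, ← Finset.sum_div, one_apply]
  push_cast at h
  rw [h]
  split_ifs <;> norm_num

end Pool.Agent.Work.MP_3b70de_al
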