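import Mathlib
import Pool.Agent.Work.MP_3b70de_al.Defs2
import Pool.Agent.Work.MP_3b70de_al.KS

-- merged part: Pool.Agent.Work.MP_3b70de_al.Cube
section
/-! A finite-dimensional solution has a reducing projection of rank prime to three. -/

namespace Pool.Agent.Work.MP_3b70de_al

open Matrix Kronecker

theorem IsSol.map {m n : ℕ} {M : Matrix (Fin m) (Fin n) (ZMod 2)} {b : Fin m → ZMod 2}
    {B B' : Type} [Ring B] [StarRing B] [Ring B'] [StarRing B'] {x : Fin n → B} (h : IsSol M b x)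
    (f : B →* B') (hs : ∀ a, f (star a) = star (f a)) (hn : f (-1) = -1) :
    IsSol M b fun i => f (x i) := by
  obtain ⟨h1, h2, h3, h4⟩ := h
  refine ⟨fun i => by rw [← hs, h1], fun i => by rw [← map_mul, h2, map_one],
    fun k i j hi hj => by rw [← map_mul, h3 k i j hi hj, map_mul], fun k => ?_⟩
  have := congrArg f (h4 k)
  rw [map_list_prod, List.map_ofFn, map_pow, hn] at this
  rw [← this]
  congr 2
  funext i
  simp

variable {ι : Type} [Fintype ι] [DecidableEq ι]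

/-- the third tensor power -/
def cube : Matrix ι ι ℂ →* Matrix (ι × ι × ι) (ι × ι × ι) ℂ where
  toFun a := a ⊗ₖ (a ⊗ₖ a)
  map_one' := by rw [one_kronecker_one, one_kronecker_one]
  map_mul' a b := by rw [mul_kronecker_mul, mul_kronecker_mul]

theorem cube_apply (a : Matrix ι ι ℂ) (x y : ι × ι × ι) :
    cube a x y = a x.1 y.1 * (a x.2.1 y.2.1 * a x.2.2 y.2.2) := rfl

theorem cube_star (a : Matrix ι ι ℂ) : cube (star a) = star (cube a) := by
  ext x y
  simp [cube_apply, star_apply]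

theorem cube_neg_one : cube (-1 : Matrix ι ι ℂ) = -1 := by
  rw [← map_one (cube (ι := ι))]
  ext x y
  simp only [cube_apply, Matrix.neg_apply]
  ring

/-- the cyclic shift of the three factors -/
def cyc (ι : Type) : Equiv.Perm (ι × ι × ι) where
  toFun x := (x.2.1, x.2.2, x.1)
  invFun x := (x.2.2, x.1, x.2.1)
  left_inv _ := rfl
  right_inv _ := rfl

/-- its matrix -/
def shf (ι : Type) [DecidableEq ι] : Matrix (ι × ι × ι) (ι × ι × ι) ℂ := (cyc ι).permMatrix ℂ

theorem shf_mul (a : Matrix (ι × ι × ι) (ι × ι × ι) ℂ) : shf ι * a = a.submatrix (cyc ι) id :=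
  PEquiv.toMatrix_toPEquiv_mul _ _

theorem mul_shf (a : Matrix (ι × ι × ι) (ι × ι × ι) ℂ) :
    a * shf ι = a.submatrix id (cyc ι).symm :=
  PEquiv.mul_toMatrix_toPEquiv _ _

theorem shf_cube (a : Matrix ι ι ℂ) : shf ι * cube a = cube a * shf ι := by
  rw [shf_mul, mul_shf]
  ext x y
  simp only [submatrix_apply, cube_apply, cyc, Equiv.coe_fn_mk, Equiv.coe_fn_symm_mk, id]
  ring

theorem shf_three : shf ι * (shf ι * shf ι) = 1 := by
  rw [shf, ← permMatrix_mul, ← permMatrix_mul, ← permMatrix_one]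
  rfl

theorem star_shf : star (shf ι) = shf ι * shf ι := by
  rw [shf, star_eq_conjTranspose, conjTranspose_permMatrix, ← permMatrix_mul]
  rfl

theorem trace_shf_cube (a : Matrix ι ι ℂ) : trace (shf ι * cube a) = trace (a * a * a) := by
  rw [shf_mul]
  simp only [trace, diag, submatrix_apply, cube_apply, cyc, Equiv.coe_fn_mk, id, mul_apply,
    Fintype.sum_prod_type, Finset.sum_mul]
  refine Finset.sum_congr rfl fun x _ => ?_
  refine Finset.sum_congr rfl fun y _ => Finset.sum_congr rfl fun z _ => ?_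
  ring

theorem trace_shf2_cube (a : Matrix ι ι ℂ) :
    trace (shf ι * (shf ι * cube a)) = trace (a * a * a) := by
  rw [shf_mul, shf_mul]
  simp only [trace, diag, submatrix_apply, cube_apply, cyc, Equiv.coe_fn_mk, id, mul_apply,
    Fintype.sum_prod_type, Finset.sum_mul]
  refine Finset.sum_congr rfl fun x _ => ?_
  rw [Finset.sum_comm]
  refine Finset.sum_congr rfl fun y _ => Finset.sum_congr rfl fun z _ => ?_
  ring

theorem trace_cube (a : Matrix ι ι ℂ) : trace (cube a) = trace a ^ 3 := by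
  show trace (a ⊗ₖ (a ⊗ₖ a)) = _
  rw [trace_kronecker, trace_kronecker]
  ring

/-- a matrix solution with a reducing projection of rank `r` -/
def Red {m n : ℕ} (M : Matrix (Fin m) (Fin n) (ZMod 2)) (b : Fin m → ZMod 2) (r : ℕ) : Prop :=
  ∃ (ι : Type) (_ : Fintype ι) (_ : DecidableEq ι) (y : Fin n → Matrix ι ι ℂ) (e : Matrix ι ι ℂ),
    IsSol M b y ∧ star e = e ∧ e * e = e ∧ (∀ i, e * y i = y i * e) ∧ trace e = r

theorem Red.step {m n : ℕ} {M : Matrix (Fin m) (Fin n) (ZMod 2)} {b : Fin m → ZMod 2} {s : ℕ}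
    (h : Red M b (3 * s)) : Red M b (s * (9 * s ^ 2 + 2)) := by
  obtain ⟨ι, _, _, y, e, hy, h1, h2, h3, h4⟩ := h
  have c1 := shf_cube e
  have c3 := shf_three (ι := ι)
  have e2 : cube e * cube e = cube e := by rw [← map_mul, h2]
  set S := shf ι with hS
  set E := cube e with hE
  have hT : (1 + S + S * S) * (1 + S + S * S) = (3 : ℂ) • (1 + S + S * S) := by
    have c4 : S * S * (S * S) = S := by rw [mul_assoc, c3, mul_one]
    have c5 : S * S * S = 1 := by rw [mul_assoc, c3]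
    simp only [add_mul, mul_add, one_mul, mul_one, c3, c4, c5]
    module
  have hc : (1 + S + S * S) * E = E * (1 + S + S * S) := by
    simp only [add_mul, mul_add, one_mul, mul_one, mul_assoc, c1]
    rw [← mul_assoc, c1, mul_assoc]
  refine ⟨ι × ι × ι, inferInstance, inferInstance, fun i => cube (y i),
    (1 / 3 : ℂ) • ((1 + S + S * S) * E), hy.map cube cube_star cube_neg_one, ?_, ?_, fun i => ?_, ?_⟩
  · have s1 : star S = S * S := star_shf
    have s2 : star (S * S) = S := by rw [← s1, star_star]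
    rw [star_smul, star_mul, star_add, star_add, s1, s2, star_one, hE, ← cube_star, h1, ← hE, hc,
      add_right_comm]
    simp
  · rw [smul_mul_smul_comm, mul_assoc, ← mul_assoc E, ← hc, mul_assoc, e2, ← mul_assoc, hT,
      smul_mul_assoc, smul_smul]
    norm_num
  · have c6 : S * cube (y i) = cube (y i) * S := shf_cube (y i)
    have c7 : E * cube (y i) = cube (y i) * E := by rw [hE, ← map_mul, h3, map_mul]
    rw [smul_mul_assoc, mul_smul_comm, mul_assoc, c7, ← mul_assoc, ← mul_assoc]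
    congr 2
    simp only [add_mul, mul_add, one_mul, mul_one, mul_assoc, c6]
    rw [← mul_assoc, c6, mul_assoc]
  · rw [trace_smul, add_mul, add_mul, one_mul, trace_add, trace_add, mul_assoc, hS, hE,
      trace_shf2_cube, trace_shf_cube, trace_cube, h2, h2, h4]
    push_cast
    rw [smul_eq_mul]
    ring

theorem Red.exists_prime {m n : ℕ} {M : Matrix (Fin m) (Fin n) (ZMod 2)} {b : Fin m → ZMod 2}
    (v : ℕ) : ∀ r, ¬ 3 ^ v ∣ r → Red M b r → ∃ r', ¬ 3 ∣ r' ∧ Red M b r' := by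
  induction v with
  | zero => exact fun r h => absurd (one_dvd r) h
  | succ v ih =>
    intro r hr h
    by_cases h3 : 3 ∣ r
    · obtain ⟨s, rfl⟩ := h3
      refine ih _ (fun hd => hr ?_) h.step
      have hc : Nat.Coprime (3 ^ v) (9 * s ^ 2 + 2) := by
        refine Nat.Coprime.pow_left v ((Nat.Prime.coprime_iff_not_dvd Nat.prime_three).2 ?_)
        omega
      rw [pow_succ, mul_comm]
      exact Nat.mul_dvd_mul_left 3 (hc.dvd_of_dvd_mul_right hd)
    · exact ⟨r, h3, h⟩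

theorem exists_red {m n d : ℕ} {M : Matrix (Fin m) (Fin n) (ZMod 2)} {b : Fin m → ZMod 2}
    {y : Fin n → Matrix (Fin (d + 1)) (Fin (d + 1)) ℂ} (hy : IsSol M b y) :
    ∃ r, ¬ 3 ∣ r ∧ Red M b r := by
  refine Red.exists_prime (d + 1) (d + 1) (fun h => ?_) ⟨Fin (d + 1), inferInstance, inferInstance,
    y, 1, hy, star_one _, mul_one _, fun i => by rw [one_mul, mul_one], by simp⟩
  exact absurd (Nat.le_of_dvd (Nat.succ_pos d) h)
    (not_le.2 (Nat.lt_pow_self (by norm_num)))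

end Pool.Agent.Work.MP_3b70de_al
end

-- merged part: Pool.Agent.Work.MP_3b70de_al.Corner
section
/-! The six-dimensional quantum isomorphism, and the obstruction. -/

namespace Pool.Agent.Work.MP_3b70de_al

open Matrix

section Model

variable {J I R : Type} [DecidableEq J] [Ring R] {var : J → Fin 6 → I} (Q : I → R)

/-- same equation, and the assignments differ by the indicator of `s` -/
def Cnd (g : Vx J 1) (h : Vx J 0) (s : Fin 6) : Prop :=
  g.1.1 = h.1.1 ∧ g.1.2 = h.1.2 + Pi.single s 1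

instance (g : Vx J 1) (h : Vx J 0) (s : Fin 6) : Decidable (Cnd g h s) := by
  unfold Cnd
  infer_instance

variable (var) in
/-- the magic family -/
def pm (g : Vx J 1) (h : Vx J 0) : R := ∑ s, if Cnd g h s then Q (var g.1.1 s) else 0

theorem pm_cases (g : Vx J 1) (h : Vx J 0) :
    pm var Q g h = 0 ∨ ∃ s, Cnd g h s ∧ pm var Q g h = Q (var g.1.1 s) := by
  by_cases hc : ∃ s, Cnd g h s
  · obtain ⟨s, hs⟩ := hc
    refine Or.inr ⟨s, hs, ?_⟩
    rw [pm, Finset.sum_eq_single_of_mem s (Finset.mem_univ s), if_pos hs]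
    intro t _ hts
    refine if_neg fun ht => ?_
    have := congrFun (add_left_cancel (hs.2.symm.trans ht.2)) s
    rw [Pi.single_eq_same, Pi.single_eq_of_ne hts.symm] at this
    exact absurd this (by decide)
  · exact Or.inl (Finset.sum_eq_zero fun s _ => if_neg fun hs => hc ⟨s, hs⟩)

theorem pm_row [Fintype J] (hs : ∀ j, ∑ s, Q (var j s) = 1) (g : Vx J 1) :
    ∑ h, pm var Q g h = 1 := by
  simp only [pm]
  rw [Finset.sum_comm, ← hs g.1.1]
  refine Finset.sum_congr rfl fun s _ => ?_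
  let h0 : Vx J 0 := ⟨(g.1.1, g.1.2 - Pi.single s 1), by
    simp only [Pi.sub_apply, Finset.sum_sub_distrib, g.2, Finset.sum_pi_single', Finset.mem_univ,
      if_true, sub_self]⟩
  rw [Finset.sum_eq_single_of_mem h0 (Finset.mem_univ _), if_pos ⟨rfl, (sub_add_cancel _ _).symm⟩]
  intro h _ hne
  exact if_neg fun hc => hne (Subtype.ext (Prod.ext hc.1.symm (eq_sub_of_add_eq hc.2.symm)))

theorem pm_col [Fintype J] (hs : ∀ j, ∑ s, Q (var j s) = 1) (h : Vx J 0) :
    ∑ g, pm var Q g h = 1 := by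
  simp only [pm]
  rw [Finset.sum_comm, ← hs h.1.1]
  refine Finset.sum_congr rfl fun s _ => ?_
  let g0 : Vx J 1 := ⟨(h.1.1, h.1.2 + Pi.single s 1), by
    simp only [Pi.add_apply, Finset.sum_add_distrib, h.2, Finset.sum_pi_single', Finset.mem_univ,
      if_true, zero_add]⟩
  rw [Finset.sum_eq_single_of_mem g0 (Finset.mem_univ _), if_pos ⟨rfl, rfl⟩]
  intro g _ hne
  exact if_neg fun hc => hne (Subtype.ext (Prod.ext hc.1 hc.2))

theorem pm_orth {hv : ∀ j, Function.Injective (var j)}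
    (ho : ∀ j s t, s ≠ t → Q (var j s) * Q (var j t) = 0) (g g' : Vx J 1) (h h' : Vx J 0)
    (hn : ¬ ((g = g' ↔ h = h') ∧ ((gr var hv 1).Adj g g' ↔ (gr var hv 0).Adj h h'))) :
    pm var Q g h * pm var Q g' h' = 0 := by
  rcases pm_cases (var := var) Q g h with h0 | ⟨s, ⟨c1, c2⟩, h1⟩
  · rw [h0, zero_mul]
  rcases pm_cases (var := var) Q g' h' with h0 | ⟨t, ⟨c3, c4⟩, h2⟩
  · rw [h0, mul_zero]
  rw [h1, h2]
  by_contra hne
  have key : ∀ s' t', var g.1.1 s' = var g'.1.1 t' →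
      (g.1.2 s' = g'.1.2 t' ↔ h.1.2 s' = h'.1.2 t') := by
    intro s' t' hvar
    have e : (Pi.single s 1 : Fin 6 → ZMod 3) s' = (Pi.single t 1 : Fin 6 → ZMod 3) t' := by
      by_cases a : s' = s <;> by_cases a' : t' = t
      · rw [a, a', Pi.single_eq_same, Pi.single_eq_same]
      · exact absurd (by rw [← a, hvar]; exact ho _ _ _ a') hne
      · exact absurd (by rw [← a', ← hvar]; exact ho _ _ _ (Ne.symm a)) hne
      · rw [Pi.single_eq_of_ne a, Pi.single_eq_of_ne a']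
    rw [c2, c4, Pi.add_apply, Pi.add_apply, e, add_left_inj]
  refine hn ⟨⟨fun e => ?_, fun e => ?_⟩, ⟨?_, ?_⟩⟩
  · subst e
    exact Subtype.ext (Prod.ext (c1.symm.trans c3) (funext fun s' => (key s' s' rfl).1 rfl))
  · subst e
    have e1 : g.1.1 = g'.1.1 := c1.trans c3.symm
    exact Subtype.ext (Prod.ext e1 (funext fun s' => (key s' s' (by rw [e1])).2 rfl))
  · rintro ⟨s', t', a1, a2⟩
    exact ⟨s', t', by rw [← c1, ← c3, a1], fun a => a2 ((key s' t' a1).2 a)⟩
  · rintro ⟨s', t', a1, a2⟩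
    rw [← c1, ← c3] at a1
    exact ⟨s', t', a1, fun a => a2 ((key s' t' a1).1 a)⟩

end Model

/-- operators on a finite-dimensional Hilbert space -/
abbrev Op (ι : Type) [Fintype ι] : Type := EuclideanSpace ℂ ι →L[ℂ] EuclideanSpace ℂ ι

theorem six_rel : IsoRel (gr vr vr_inj 1) (gr vr vr_inj 0)
    (pm vr fun i => (Matrix.toEuclideanCLM (n := Fin 6) (𝕜 := ℂ) (Qm i) : Op (Fin 6))) := by
  have hs : ∀ j, ∑ s, (Matrix.toEuclideanCLM (n := Fin 6) (𝕜 := ℂ) (Qm (vr j s)) : Op (Fin 6)) = 1 :=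
    fun j => by rw [← map_sum, Qm_sum, map_one]
  refine ⟨fun g h => ?_, fun g h => ?_, pm_row _ hs, pm_col _ hs, pm_orth _ fun j s t hst => ?_⟩
  · rcases pm_cases (var := vr)
      (fun i => (Matrix.toEuclideanCLM (n := Fin 6) (𝕜 := ℂ) (Qm i) : Op (Fin 6))) g h with
      h0 | ⟨s, -, h0⟩
    · rw [h0, mul_zero]
    · rw [h0, ← map_mul, Qm_idem]
  · rcases pm_cases (var := vr)
      (fun i => (Matrix.toEuclideanCLM (n := Fin 6) (𝕜 := ℂ) (Qm i) : Op (Fin 6))) g h with
      h0 | ⟨s, -, h0⟩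
    · rw [h0, star_zero]
    · rw [h0, ← map_star, Qm_star]
  · rw [← map_mul, Qm_orth j hst, map_zero]

theorem three_dvd {ι : Type} [Fintype ι] [DecidableEq ι] (P : Vx (Fin 23) 1 → Vx (Fin 23) 0 → Matrix ι ι ℂ)
    (e : Matrix ι ι ℂ) (r : ℕ) (hid : ∀ g h, P g h * P g h = P g h) (col : ∀ h, ∑ g, P g h = 1)
    (orth : ∀ g g' h h', ¬ ((g = g' ↔ h = h') ∧
      ((gr vr vr_inj 1).Adj g g' ↔ (gr vr vr_inj 0).Adj h h')) → P g h * P g' h' = 0)
    (he : e * e = e) (hc : ∀ g h, e * P g h = P g h * e) (hr : trace e = r) : 3 ∣ r := by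
  obtain ⟨w, h1, h2⟩ := exists_weights _ _ P e r hid col orth he hc hr
    (fun j : Fin 23 => (⟨(j, 0), by simp⟩ : Vx (Fin 23) 0)) fun k l hkl =>
      ⟨fun h => hkl (congrArg (fun z : Vx (Fin 23) 0 => z.1.1) h), fun ⟨_, _, _, h⟩ => h rfl⟩
  obtain ⟨y, h3, h4⟩ := weights_solution w r h1 h2
  exact (ZMod.natCast_eq_zero_iff r 3).1 (solution_zero coef coef_zero coef_sum y r h3 h4)

theorem no_hom_corner (A : Type) [CStarAlgebra A] (p : Vx (Fin 23) 1 → Vx (Fin 23) 0 → A)
    (hp : IsoRel (gr vr vr_inj 1) (gr vr vr_inj 0) p) {m n : ℕ}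
    {M : Matrix (Fin m) (Fin n) (ZMod 2)} {b : Fin m → ZMod 2} {C : Type} [CStarAlgebra C]
    {x : Fin n → C} (hx : IsSolAlg M b x) {d : ℕ}
    {y0 : Fin n → Matrix (Fin (d + 1)) (Fin (d + 1)) ℂ} (hy0 : IsSol M b y0) :
    IsEmpty (A →⋆ₐ[ℂ] C) := by
  obtain ⟨r, hr, ι, _, _, y, e, hy, h1, h2, h3, h4⟩ := exists_red hy0
  let T := Matrix.toEuclideanCLM (n := ι) (𝕜 := ℂ)
  obtain ⟨ψ, hψ, huniq⟩ := hx.2 (Op ι) (fun i => T (y i))
    (hy.map (T : Matrix ι ι ℂ →* Op ι) (fun a => map_star T a) (by simp))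
  have u2 : (1 - 2 * e) * (1 - 2 * e) = 1 := by
    have : (1 - 2 * e) * (1 - 2 * e) = 1 - 4 * e + 4 * (e * e) := by noncomm_ring
    rw [this, h2, sub_add_cancel]
  have us : star (1 - 2 * e) = 1 - 2 * e := by
    rw [two_mul, star_sub, star_add, star_one, h1]
  let u : unitary (Op ι) := ⟨T (1 - 2 * e), by
    rw [Unitary.mem_iff, ← map_star, us, ← map_mul, u2, map_one]
    exact ⟨rfl, rfl⟩⟩
  have hψ' := huniq (((Unitary.conjStarAlgAut ℂ (Op ι) u : Op ι ≃⋆ₐ[ℂ] Op ι) :
      Op ι →⋆ₐ[ℂ] Op ι).comp ψ) fun i => by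
    show (u : Op ι) * ψ (x i) * star (u : Op ι) = T (y i)
    have c : (1 - 2 * e) * y i = y i * (1 - 2 * e) := by
      rw [two_mul, sub_mul, mul_sub, add_mul, mul_add, h3, one_mul, mul_one]
    rw [hψ, ← map_star, us, ← map_mul, ← map_mul, c, mul_assoc, u2, mul_one]
  have hcomm : ∀ c, e * T.symm (ψ c) = T.symm (ψ c) * e := by
    intro c
    have a1 : T (1 - 2 * e) * ψ c * star (T (1 - 2 * e)) = ψ c := DFunLike.congr_fun hψ' c
    have a2 := congrArg T.symm a1
    rw [← map_star, us, map_mul, map_mul, T.symm_apply_apply] at a2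
    have a3 : (1 - 2 * e) * T.symm (ψ c) = T.symm (ψ c) * (1 - 2 * e) := by
      conv_rhs => rw [← a2, mul_assoc, u2, mul_one]
    rw [two_mul, sub_mul, mul_sub, one_mul, mul_one, sub_right_inj, add_mul, mul_add, ← two_smul ℂ,
      ← two_smul ℂ] at a3
    exact smul_right_injective _ two_ne_zero a3
  obtain ⟨p1, -, -, p4, p5⟩ := hp
  refine ⟨fun φ => hr (three_dvd (fun g h => T.symm (ψ (φ (p g h)))) e r (fun g h => ?_)
    (fun h => ?_) (fun g g' h h' hn => ?_) h2 (fun g h => hcomm _) h4)⟩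
  · rw [← map_mul, ← map_mul, ← map_mul, p1]
  · rw [← map_sum, ← map_sum, ← map_sum, p4, map_one, map_one, map_one]
  · rw [← map_mul, ← map_mul, ← map_mul, p5 _ _ _ _ hn, map_zero, map_zero, map_zero]

end Pool.Agent.Work.MP_3b70de_al
end
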