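import Mathlib.Analysis.CStarAlgebra.Classes
import Mathlib.Algebra.Star.StarAlgHom
import Mathlib.Algebra.Star.Unitary
import Mathlib.Combinatorics.SimpleGraph.Basic

namespace Pool.Agent.Work.MP_3b70de_al

/-- The defining relations of the isomorphism game algebra of `(G, H)`, for a family `p` of
elements of a unital C*-algebra `A`. -/
def IsoRel {V W : Type} [Fintype V] [Fintype W] (G : SimpleGraph V) (H : SimpleGraph W)
    {A : Type} [CStarAlgebra A] (p : V → W → A) : Prop :=
  (∀ g h, p g h * p g h = p g h) ∧ (∀ g h, star (p g h) = p g h) ∧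
  (∀ g, ∑ h, p g h = 1) ∧ (∀ h, ∑ g, p g h = 1) ∧
  ∀ g g' h h', ¬ ((g = g' ↔ h = h') ∧ (G.Adj g g' ↔ H.Adj h h')) → p g h * p g' h' = 0

/-- `(C, u)` is the full group C*-algebra of `Γ`: every unitary representation of `Γ` in a unital
C*-algebra `B` factors through `u` by a unique unital *-homomorphism `C → B`. -/
def IsFullGroupAlg {Γ : Type} [Group Γ] {C : Type} [CStarAlgebra C] (u : Γ →* unitary C) : Prop :=
  ∀ (B : Type) [CStarAlgebra B] (v : Γ →* unitary B),
    ∃! φ : C →⋆ₐ[ℂ] B, ∀ γ, φ (u γ : C) = (v γ : B)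

end Pool.Agent.Work.MP_3b70de_al
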