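import Pool.Agent.Work.MP_3b70de_al.Defs2
import Mathlib.GroupTheory.PresentedGroup

namespace Pool.Agent.Work.MP_3b70de_al

/-- `(A, p)` is the isomorphism game algebra `A(G,H)`: the universal unital C*-algebra generated
by a family `p` with the relations `IsoRel G H`. -/
def IsIsoAlg {V W : Type} [Fintype V] [Fintype W] (G : SimpleGraph V) (H : SimpleGraph W)
    {A : Type} [CStarAlgebra A] (p : V → W → A) : Prop :=
  IsoRel G H p ∧ ∀ (B : Type) [CStarAlgebra B] (q : V → W → B), IsoRel G H q →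
    ∃! φ : A →⋆ₐ[ℂ] B, ∀ g h, φ (p g h) = q g h

/-- The relators of the solution group of `M x = b`; the generator `none` is `J` and `some i`
is `g_i`. -/
def solRels {m n : ℕ} (M : Matrix (Fin m) (Fin n) (ZMod 2)) (b : Fin m → ZMod 2) :
    Set (FreeGroup (Option (Fin n))) :=
  {r | (∃ s, r = FreeGroup.of s * FreeGroup.of s) ∨
    (∃ i, r = FreeGroup.of none * FreeGroup.of (some i) *
      (FreeGroup.of (some i) * FreeGroup.of none)⁻¹) ∨
    (∃ k i j, M k i = 1 ∧ M k j = 1 ∧ r = FreeGroup.of (some i) * FreeGroup.of (some j) *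
      (FreeGroup.of (some j) * FreeGroup.of (some i))⁻¹) ∨
    ∃ k, r = (List.ofFn fun i => FreeGroup.of (some i) ^ (M k i).val).prod *
      (FreeGroup.of none ^ (b k).val)⁻¹}

/-- The solution group `Γ(M, b)`. -/
abbrev SolGroup {m n : ℕ} (M : Matrix (Fin m) (Fin n) (ZMod 2)) (b : Fin m → ZMod 2) : Type :=
  PresentedGroup (solRels M b)

end Pool.Agent.Work.MP_3b70de_al
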