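import Pool.Agent.Work.MP_3b70de_al.Defs
import Mathlib.Analysis.CStarAlgebra.Matrix
import Mathlib.Analysis.CStarAlgebra.ContinuousLinearMap
import Mathlib.LinearAlgebra.Matrix.Notation


namespace Pool.Agent.Work.MP_3b70de_al

def tG : List ℕ := [13418510, 3391501, 3944459, 12791815, 11182304, 5611728, 5918896, 10834032, 9858560, 6909184, 6724352, 10065664, 60620, 54076, 46019, 31795, 920234, 853338, 722341, 461397, 14682470, 13633174, 11535977, 7342489]
def tH : List ℕ := [13418510, 3391501, 3944459, 12791815, 11182304, 5611728, 5918896, 10834032, 6712832, 10054912, 9870080, 6919936, 60620, 54076, 46019, 31795, 920234, 853338, 722341, 461397, 14681702, 13633942, 11536745, 7341721]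

def adjB (t : List ℕ) (v w : Fin 24) : Bool := (t.getD v.val 0).testBit w.val

def GG : SimpleGraph (Fin 24) where
  Adj v w := adjB tG v w = true
  symm := ⟨by decide +kernel⟩
  loopless := ⟨by decide +kernel⟩

def HH : SimpleGraph (Fin 24) where
  Adj v w := adjB tH v w = true
  symm := ⟨by decide +kernel⟩
  loopless := ⟨by decide +kernel⟩

def Qz : Fin 24 → Matrix (Fin 4) (Fin 4) ℤ :=
  ![!![1, 1, 1, 1; 1, 1, 1, 1; 1, 1, 1, 1; 1, 1, 1, 1],
   !![1, -1, 1, -1; -1, 1, -1, 1; 1, -1, 1, -1; -1, 1, -1, 1],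
   !![1, 1, -1, -1; 1, 1, -1, -1; -1, -1, 1, 1; -1, -1, 1, 1],
   !![1, -1, -1, 1; -1, 1, 1, -1; -1, 1, 1, -1; 1, -1, -1, 1],
   !![4, 0, 0, 0; 0, 0, 0, 0; 0, 0, 0, 0; 0, 0, 0, 0],
   !![0, 0, 0, 0; 0, 0, 0, 0; 0, 0, 4, 0; 0, 0, 0, 0],
   !![0, 0, 0, 0; 0, 4, 0, 0; 0, 0, 0, 0; 0, 0, 0, 0],
   !![0, 0, 0, 0; 0, 0, 0, 0; 0, 0, 0, 0; 0, 0, 0, 4],
   !![1, 1, 1, -1; 1, 1, 1, -1; 1, 1, 1, -1; -1, -1, -1, 1],
   !![1, -1, 1, 1; -1, 1, -1, -1; 1, -1, 1, 1; 1, -1, 1, 1],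
   !![1, 1, -1, 1; 1, 1, -1, 1; -1, -1, 1, -1; 1, 1, -1, 1],
   !![1, -1, -1, -1; -1, 1, 1, 1; -1, 1, 1, 1; -1, 1, 1, 1],
   !![2, 0, 2, 0; 0, 0, 0, 0; 2, 0, 2, 0; 0, 0, 0, 0],
   !![0, 0, 0, 0; 0, 2, 0, 2; 0, 0, 0, 0; 0, 2, 0, 2],
   !![2, 0, -2, 0; 0, 0, 0, 0; -2, 0, 2, 0; 0, 0, 0, 0],
   !![0, 0, 0, 0; 0, 2, 0, -2; 0, 0, 0, 0; 0, -2, 0, 2],
   !![2, 2, 0, 0; 2, 2, 0, 0; 0, 0, 0, 0; 0, 0, 0, 0],
   !![0, 0, 0, 0; 0, 0, 0, 0; 0, 0, 2, 2; 0, 0, 2, 2],
   !![2, -2, 0, 0; -2, 2, 0, 0; 0, 0, 0, 0; 0, 0, 0, 0],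
   !![0, 0, 0, 0; 0, 0, 0, 0; 0, 0, 2, -2; 0, 0, -2, 2],
   !![2, 0, 0, 2; 0, 0, 0, 0; 0, 0, 0, 0; 2, 0, 0, 2],
   !![0, 0, 0, 0; 0, 2, 2, 0; 0, 2, 2, 0; 0, 0, 0, 0],
   !![2, 0, 0, -2; 0, 0, 0, 0; 0, 0, 0, 0; -2, 0, 0, 2],
   !![0, 0, 0, 0; 0, 2, -2, 0; 0, -2, 2, 0; 0, 0, 0, 0]]

def idx (g h : Fin 24) : Fin 24 :=
  ⟨((g.val / 4) * 4 + ((g.val % 4) ^^^ (h.val % 4))) % 24, Nat.mod_lt _ (by decide)⟩

def pz (g h : Fin 24) : Matrix (Fin 4) (Fin 4) ℤ :=
  if g.val / 4 = h.val / 4 then Qz (idx g h) else 0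

theorem Qz_idem : ∀ i, Qz i * Qz i = (4 : ℤ) • Qz i := by decide +kernel
theorem Qz_symm : ∀ i, (Qz i).transpose = Qz i := by decide +kernel
theorem Qz_orth : ∀ i j, adjB tG i j = true → Qz i * Qz j = 0 := by decide +kernel
theorem pz_row : ∀ g, ∑ h, pz g h = (4 : ℤ) • 1 := by decide +kernel
theorem pz_col : ∀ h, ∑ g, pz g h = (4 : ℤ) • 1 := by decide +kernel
theorem comb : ∀ g h : Fin 24, g.val / 4 = h.val / 4 → ∀ g' h' : Fin 24, g'.val / 4 = h'.val / 4 →
    ¬ ((g = g' ↔ h = h') ∧ (adjB tG g g' = true ↔ adjB tH h h' = true)) →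
    adjB tG (idx g h) (idx g' h') = true := by
  have H : ∀ a < 6, ∀ b < 4, ∀ c < 4, ∀ a' < 6, ∀ b' < 4, ∀ c' < 4,
      ((tG.getD ((a * 4 + (b ^^^ c)) % 24) 0).testBit ((a' * 4 + (b' ^^^ c')) % 24) ||
        (Nat.beq (4 * a + b) (4 * a' + b') == Nat.beq (4 * a + c) (4 * a' + c') &&
          (tG.getD (4 * a + b) 0).testBit (4 * a' + b') ==
            (tH.getD (4 * a + c) 0).testBit (4 * a' + c'))) = true := by decide +kernel
  intro g h e g' h' e' hn
  have k := H (g.val / 4) (by omega) (g.val % 4) (by omega) (h.val % 4) (by omega)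
    (g'.val / 4) (by omega) (g'.val % 4) (by omega) (h'.val % 4) (by omega)
  rw [Nat.div_add_mod, Nat.div_add_mod, show 4 * (g.val / 4) + h.val % 4 = h.val by omega,
    show 4 * (g'.val / 4) + h'.val % 4 = h'.val by omega, Bool.or_eq_true, Bool.and_eq_true,
    beq_iff_eq, beq_iff_eq] at k
  refine k.resolve_right fun k => hn ⟨?_, Bool.eq_iff_iff.1 k.2⟩
  rw [Fin.ext_iff, Fin.ext_iff, ← Nat.beq_eq, ← Nat.beq_eq, k.1]

theorem pz_idem (g h : Fin 24) : pz g h * pz g h = (4 : ℤ) • pz g h := by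
  unfold pz; split_ifs
  · exact Qz_idem _
  · simp

theorem pz_symm (g h : Fin 24) : (pz g h).transpose = pz g h := by
  unfold pz; split_ifs
  · exact Qz_symm _
  · simp

theorem pz_orth (g g' h h' : Fin 24)
    (hne : ¬ ((g = g' ↔ h = h') ∧ (GG.Adj g g' ↔ HH.Adj h h'))) : pz g h * pz g' h' = 0 := by
  unfold pz; split_ifs with h1 h2
  · exact Qz_orth _ _ (comb g h h1 g' h' h2 hne)
  · simp
  · simp
  · simp

noncomputable def toC : Matrix (Fin 4) (Fin 4) ℤ →+* Matrix (Fin 4) (Fin 4) ℂ :=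
  (Int.castRingHom ℂ).mapMatrix

theorem toC_star (A : Matrix (Fin 4) (Fin 4) ℤ) : star (toC A) = toC A.transpose := by
  ext i j
  simp [toC, Matrix.star_apply]

theorem toC_smul (A : Matrix (Fin 4) (Fin 4) ℤ) : toC ((4 : ℤ) • A) = (4 : ℂ) • toC A := by
  ext i j
  simp only [toC, RingHom.mapMatrix_apply, Matrix.map_apply, Matrix.smul_apply, smul_eq_mul,
    map_mul]
  simp

noncomputable def pc (g h : Fin 24) : Matrix (Fin 4) (Fin 4) ℂ := (1 / 4 : ℂ) • toC (pz g h)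

abbrev E4 := EuclideanSpace ℂ (Fin 4)

noncomputable def magic (g h : Fin 24) : E4 →L[ℂ] E4 :=
  Matrix.toEuclideanCLM (n := Fin 4) (𝕜 := ℂ) (pc g h)

theorem E4_nontrivial : Nontrivial (E4 →L[ℂ] E4) :=
  (Matrix.toEuclideanCLM (n := Fin 4) (𝕜 := ℂ)).injective.nontrivial

theorem magic_rel : IsoRel GG HH magic := by
  refine ⟨fun g h => ?_, fun g h => ?_, fun g => ?_, fun h => ?_, fun g g' h h' hne => ?_⟩
  · rw [magic, ← map_mul]
    congr 1
    rw [pc, smul_mul_smul_comm, ← map_mul, pz_idem, toC_smul, smul_smul]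
    norm_num
  · rw [magic, ← map_star]
    congr 1
    rw [pc, star_smul, toC_star, pz_symm]
    simp
  · simp only [magic]
    rw [← map_sum, ← map_one (Matrix.toEuclideanCLM (n := Fin 4) (𝕜 := ℂ))]
    congr 1
    simp only [pc]
    rw [← Finset.smul_sum, ← map_sum, pz_row, toC_smul, smul_smul, map_one]
    norm_num
  · simp only [magic]
    rw [← map_sum, ← map_one (Matrix.toEuclideanCLM (n := Fin 4) (𝕜 := ℂ))]
    congr 1
    simp only [pc]
    rw [← Finset.smul_sum, ← map_sum, pz_col, toC_smul, smul_smul, map_one]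
    norm_num
  · rw [magic, magic, ← map_mul, pc, pc, smul_mul_smul_comm, ← map_mul, pz_orth g g' h h' hne]
    simp

def tN : List ℕ := [3358704, 13385712, 12832752, 3985392, 5594880, 11165440, 10858240, 5943040, 6918144, 9867264, 10051584, 6709248, 16711680, 16711680, 16711680, 16711680, 15728640, 15728640, 15728640, 15728640, 0, 0, 0, 0]

theorem tN_spec : ∀ a b : Fin 24, a ≤ b → a ≠ b → adjB tG a b = false →
    (tN.getD a.val 0).testBit b.val = true := by decide +kernel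

def ext : ℕ → ℕ → Bool
  | 0, _ => true
  | k + 1, m => (List.range 24).any fun v => m.testBit v && ext k (m &&& tN.getD v 0)

theorem ext_of_sorted (l : List (Fin 24)) (m : ℕ) (hm : ∀ x ∈ l, m.testBit x.val = true)
    (hp : l.Pairwise fun a b => a ≤ b ∧ (a ≠ b ∧ adjB tG a b = false)) :
    ext l.length m = true := by
  induction l generalizing m with
  | nil => rfl
  | cons v l ih =>
    rw [List.pairwise_cons] at hp
    simp only [List.length_cons, ext, List.any_eq_true, List.mem_range, Bool.and_eq_true]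
    refine ⟨v.val, v.isLt, hm v (by simp), ih _ (fun x hx => ?_) hp.2⟩
    rw [Nat.testBit_and, hm x (by simp [hx]),
      tN_spec v x (hp.1 x hx).1 (hp.1 x hx).2.1 (hp.1 x hx).2.2]
    rfl

theorem adj_symm : ∀ a b : Fin 24, adjB tG a b = false → adjB tG b a = false := by
  decide +kernel

theorem ext_of_list (l : List (Fin 24)) (m : ℕ) (hm : ∀ x ∈ l, m.testBit x.val = true)
    (hp : l.Pairwise fun a b => a ≠ b ∧ adjB tG a b = false) : ext l.length m = true := by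
  have hperm := List.perm_insertionSort (· ≤ ·) l
  rw [← hperm.length_eq]
  refine ext_of_sorted _ m (fun x hx => hm x (hperm.subset hx)) ?_
  refine List.Pairwise.and (List.pairwise_insertionSort (· ≤ ·) l) ?_
  exact hp.perm hperm.symm (fun h => ⟨h.1.symm, adj_symm _ _ h.2⟩)

theorem ext_six : ext 6 16777215 = false := by decide +kernel

theorem no_scalar (c : Fin 24 → Fin 24 → ℂ) (col : ∀ h, ∑ g, c g h = 1)
    (orth : ∀ g g' h h', ¬ ((g = g' ↔ h = h') ∧ (GG.Adj g g' ↔ HH.Adj h h')) →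
      c g h * c g' h' = 0) : False := by
  have ex : ∀ h, ∃ g, c g h ≠ 0 := by
    intro h
    by_contra hc
    push Not at hc
    have := col h
    simp [hc] at this
  choose s hs using ex
  have key : ∀ h h' : Fin 24, h ≠ h' → adjB tH h h' = false →
      s h ≠ s h' ∧ adjB tG (s h) (s h') = false := by
    intro h h' hne hna
    by_contra hc
    refine mul_ne_zero (hs h) (hs h') (orth _ _ _ _ ?_)
    rintro ⟨h1, h2⟩
    apply hc
    refine ⟨fun h3 => hne (h1.1 h3), ?_⟩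
    cases h4 : adjB tG (s h) (s h') with
    | false => rfl
    | true =>
      have : adjB tH h h' = true := h2.1 h4
      rw [hna] at this
      exact absurd this (by decide)
  have h6 := ext_of_list (([0, 4, 8, 12, 16, 20] : List (Fin 24)).map s) 16777215
    (fun x _ => (by decide +kernel : ∀ x : Fin 24, (16777215 : ℕ).testBit x.val = true) x)
    (List.Pairwise.map s (fun a b hab => key a b hab.1 hab.2)
      (by decide +kernel : ([0, 4, 8, 12, 16, 20] : List (Fin 24)).Pairwise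
        fun a b => a ≠ b ∧ adjB tH a b = false))
  rw [List.length_map] at h6
  exact absurd (h6.symm.trans ext_six) (by decide)

theorem no_hom (A : Type) [CStarAlgebra A] (p : Fin 24 → Fin 24 → A) (hp : IsoRel GG HH p)
    (Γ : Type) [Group Γ] (C : Type) [CStarAlgebra C] (u : Γ →* unitary C)
    (hu : IsFullGroupAlg u) : IsEmpty (A →⋆ₐ[ℂ] C) := by
  obtain ⟨χ, -, -⟩ := hu ℂ 1
  obtain ⟨-, -, -, hcol, horth⟩ := hp
  refine ⟨fun φ => no_scalar (fun g h => χ (φ (p g h))) ?_ ?_⟩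
  · intro h
    rw [← map_sum, ← map_sum, hcol, map_one, map_one]
  · intro g g' h h' hne
    rw [← map_mul, ← map_mul, horth g g' h h' hne, map_zero, map_zero]

end Pool.Agent.Work.MP_3b70de_al
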