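import Mathlib

/-! Ranks in a finite-dimensional quantum isomorphism, and the graphs of a system modulo three. -/

namespace Pool.Agent.Work.MP_3b70de_al

open Matrix

theorem idem_trace {ι : Type} [Fintype ι] [DecidableEq ι] {X : Matrix ι ι ℂ} (h : X * X = X) :
    ∃ k : ℕ, trace X = k := by
  have h1 : IsIdempotentElem (Matrix.toLin' X) := by
    rw [IsIdempotentElem, Module.End.mul_eq_comp, ← Matrix.toLin'_mul, h]
  exact ⟨_, (Matrix.trace_toLin'_eq X).symm.trans (LinearMap.IsIdempotentElem.isProj_range _ h1).trace⟩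

theorem sum_idem {R α : Type} [Ring R] (F : Finset α) (f : α → R) (h1 : ∀ a, f a * f a = f a)
    (h2 : ∀ a ∈ F, ∀ b ∈ F, a ≠ b → f a * f b = 0) : (∑ a ∈ F, f a) * ∑ a ∈ F, f a = ∑ a ∈ F, f a := by
  rw [Finset.sum_mul_sum]
  refine Finset.sum_congr rfl fun a ha => ?_
  rw [Finset.sum_eq_single_of_mem a ha fun b hb hba => h2 a ha b hb hba.symm, h1]

theorem exists_weights {V W K ι : Type} [Fintype V] [Fintype K] [Fintype ι] [DecidableEq ι]
    (G : SimpleGraph V) (H : SimpleGraph W) (P : V → W → Matrix ι ι ℂ) (e : Matrix ι ι ℂ) (r : ℕ)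
    (hid : ∀ g h, P g h * P g h = P g h) (col : ∀ h, ∑ g, P g h = 1)
    (orth : ∀ g g' h h', ¬ ((g = g' ↔ h = h') ∧ (G.Adj g g' ↔ H.Adj h h')) → P g h * P g' h' = 0)
    (he : e * e = e) (hc : ∀ g h, e * P g h = P g h * e) (hr : trace e = r)
    (s : K → W) (hs : ∀ k l, k ≠ l → s k ≠ s l ∧ ¬ H.Adj (s k) (s l)) :
    ∃ w : V → ℕ, ∑ g, w g = Fintype.card K * r ∧
      ∀ T : Finset V, (∀ g ∈ T, ∀ g' ∈ T, g ≠ g' → G.Adj g g') → ∑ g ∈ T, w g ≤ r := by
  have key : ∀ T : Finset V, (∀ g ∈ T, ∀ g' ∈ T, g ≠ g' → G.Adj g g') →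
      (e * ∑ g ∈ T, ∑ k, P g (s k)) * (e * ∑ g ∈ T, ∑ k, P g (s k)) =
        e * ∑ g ∈ T, ∑ k, P g (s k) := by
    intro T hT
    have c : (∑ g ∈ T, ∑ k, P g (s k)) * e = e * ∑ g ∈ T, ∑ k, P g (s k) := by
      simp only [Finset.sum_mul, Finset.mul_sum, hc]
    rw [mul_assoc, ← mul_assoc _ e, c, ← mul_assoc, ← mul_assoc, he, mul_assoc,
      ← Finset.sum_product' T Finset.univ fun g k => P g (s k)]
    congr 1
    refine sum_idem _ _ (fun a => hid _ _) fun a ha b hb hab => orth _ _ _ _ fun h => ?_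
    have ha' := (Finset.mem_product.1 ha).1
    have hb' := (Finset.mem_product.1 hb).1
    by_cases hk : a.2 = b.2
    · exact hab (Prod.ext (h.1.2 (congrArg s hk)) hk)
    · exact (hs _ _ hk).2 (h.2.1 (hT _ ha' _ hb' fun hg => (hs _ _ hk).1 (h.1.1 hg)))
  have h1 : ∀ g, ∃ k : ℕ, trace (e * ∑ k, P g (s k)) = k := fun g => by
    have := key {g} fun a ha b hb hab =>
      absurd ((Finset.mem_singleton.1 ha).trans (Finset.mem_singleton.1 hb).symm) hab
    rw [Finset.sum_singleton] at this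
    exact idem_trace this
  choose w hw using h1
  have h2 : ∀ T : Finset V, trace (e * ∑ g ∈ T, ∑ k, P g (s k)) = (∑ g ∈ T, w g : ℕ) := by
    intro T
    rw [Finset.mul_sum, trace_sum, Nat.cast_sum]
    exact Finset.sum_congr rfl fun g _ => hw g
  refine ⟨w, ?_, fun T hT => ?_⟩
  · have := h2 Finset.univ
    rw [Finset.sum_comm] at this
    simp only [col, Finset.sum_const, Finset.card_univ] at this
    rw [mul_smul_comm, mul_one, trace_smul, hr, nsmul_eq_mul] at this
    exact_mod_cast this.symm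
  · have h3 := key T hT
    have h4 := h2 T
    have c : (∑ g ∈ T, ∑ k, P g (s k)) * e = e * ∑ g ∈ T, ∑ k, P g (s k) := by
      simp only [Finset.sum_mul, Finset.mul_sum, hc]
    set X := ∑ g ∈ T, ∑ k, P g (s k)
    obtain ⟨k, hk⟩ := idem_trace (X := e - e * X) (by
      rw [sub_mul, mul_sub, mul_sub, h3, he, ← mul_assoc, he, mul_assoc, c, ← mul_assoc, he]
      abel)
    rw [trace_sub, hr, h4, sub_eq_iff_eq_add] at hk
    have : r = k + ∑ g ∈ T, w g := by exact_mod_cast hk
    omega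

variable {J I : Type} (var : J → Fin 6 → I)

/-- an equation with an assignment of its six variables whose sum is `b` -/
abbrev Vx (J : Type) (b : ZMod 3) : Type := {z : J × (Fin 6 → ZMod 3) // ∑ s, z.2 s = b}

/-- two assignments are adjacent when they disagree on a common variable -/
def gr (hv : ∀ j, Function.Injective (var j)) (b : ZMod 3) : SimpleGraph (Vx J b) where
  Adj z z' := ∃ s t, var z.1.1 s = var z'.1.1 t ∧ z.1.2 s ≠ z'.1.2 t
  symm := ⟨fun _ _ ⟨s, t, h1, h2⟩ => ⟨t, s, h1.symm, h2.symm⟩⟩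
  loopless := ⟨fun z ⟨_, _, h1, h2⟩ => h2 (congrArg z.1.2 (hv _ h1))⟩

variable {var}

theorem gr_adj_of_eq {hv : ∀ j, Function.Injective (var j)} {b : ZMod 3} {z z' : Vx J b}
    (h : z.1.1 = z'.1.1) (hne : z ≠ z') : (gr var hv b).Adj z z' := by
  by_contra hc
  refine hne (Subtype.ext (Prod.ext h (funext fun s => ?_)))
  by_contra h2
  exact hc ⟨s, s, by rw [h], h2⟩

theorem weights_solution [Fintype J] [DecidableEq J] {hv : ∀ j, Function.Injective (var j)}
    (w : Vx J 1 → ℕ) (r : ℕ) (h1 : ∑ g, w g = Fintype.card J * r)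
    (h2 : ∀ T : Finset (Vx J 1), (∀ g ∈ T, ∀ g' ∈ T, g ≠ g' → (gr var hv 1).Adj g g') →
      ∑ g ∈ T, w g ≤ r) :
    ∃ y : J → Fin 6 → ZMod 3, (∀ j s l t, var j s = var l t → y j s = y l t) ∧
      ∀ j, ∑ s, y j s = r := by
  let F : J → Finset (Vx J 1) := fun j => Finset.univ.filter fun g => g.1.1 = j
  have mF : ∀ {j g}, g ∈ F j ↔ g.1.1 = j := by simp [F]
  have hle : ∀ j, ∑ g ∈ F j, w g ≤ r := fun j =>
    h2 _ fun g hg g' hg' hne => gr_adj_of_eq ((mF.1 hg).trans (mF.1 hg').symm) hne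
  have hsum : ∑ j, ∑ g ∈ F j, w g = ∑ _j : J, r := by
    rw [Finset.sum_fiberwise Finset.univ (fun g : Vx J 1 => g.1.1) w, h1]
    simp
  have heq : ∀ j, ∑ g ∈ F j, w g = r := fun j =>
    (Finset.sum_eq_sum_iff_of_le fun j _ => hle j).1 hsum j (Finset.mem_univ j)
  let N : J → Fin 6 → ZMod 3 → ℕ := fun j s a => ∑ g ∈ (F j).filter fun g => g.1.2 s = a, w g
  have hN : ∀ j s l t a, var j s = var l t → N j s a ≤ N l t a := by
    intro j s l t a h
    have a1 := Finset.sum_filter_add_sum_filter_not (F l) (fun g => g.1.2 t = a) w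
    have dj : Disjoint ((F j).filter fun g => g.1.2 s = a) ((F l).filter fun g => ¬ g.1.2 t = a) := by
      refine Finset.disjoint_left.2 fun g hg hg' => ?_
      obtain ⟨b1, b2⟩ := Finset.mem_filter.1 hg
      obtain ⟨b3, b4⟩ := Finset.mem_filter.1 hg'
      obtain rfl := mF.1 b1
      obtain rfl := mF.1 b3
      obtain rfl := hv _ h
      exact b4 b2
    have a2 := h2 (((F j).filter fun g => g.1.2 s = a) ∪ (F l).filter fun g => ¬ g.1.2 t = a) (by
      intro g hg g' hg' hne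
      rcases Finset.mem_union.1 hg with hg | hg <;> rcases Finset.mem_union.1 hg' with hg' | hg' <;>
        obtain ⟨b1, b2⟩ := Finset.mem_filter.1 hg <;> obtain ⟨b3, b4⟩ := Finset.mem_filter.1 hg'
      · exact gr_adj_of_eq ((mF.1 b1).trans (mF.1 b3).symm) hne
      · exact ⟨s, t, by rw [mF.1 b1, mF.1 b3, h], fun c => b4 (c.symm.trans b2)⟩
      · exact ⟨t, s, by rw [mF.1 b1, mF.1 b3, h], fun c => b2 (c.trans b4)⟩
      · exact gr_adj_of_eq ((mF.1 b1).trans (mF.1 b3).symm) hne)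
    rw [Finset.sum_union dj] at a2
    have a3 := heq l
    simp only [N]
    omega
  have hy : ∀ j s, ∑ g ∈ F j, (w g : ZMod 3) * g.1.2 s = ∑ a, (N j s a : ZMod 3) * a := by
    intro j s
    rw [← Finset.sum_fiberwise (F j) fun g => g.1.2 s]
    refine Finset.sum_congr rfl fun a _ => ?_
    simp only [N, Nat.cast_sum, Finset.sum_mul]
    exact Finset.sum_congr rfl fun g hg => by rw [(Finset.mem_filter.1 hg).2]
  refine ⟨fun j s => ∑ g ∈ F j, (w g : ZMod 3) * g.1.2 s, fun j s l t h => ?_, fun j => ?_⟩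
  · simp only [hy]
    exact Finset.sum_congr rfl fun a _ => by
      rw [le_antisymm (hN j s l t a h) (hN l t j s a h.symm)]
  · rw [Finset.sum_comm, ← heq j, Nat.cast_sum]
    exact Finset.sum_congr rfl fun g _ => by rw [← Finset.mul_sum, g.2, mul_one]

theorem solution_zero [Fintype J] [Fintype I] [DecidableEq I] (c : J → ZMod 3)
    (hc : ∀ i, ∑ j, ∑ s, (if var j s = i then c j else 0) = 0) (hc' : ∑ j, c j = 1)
    (y : J → Fin 6 → ZMod 3) (r : ZMod 3) (h1 : ∀ j s l t, var j s = var l t → y j s = y l t)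
    (h2 : ∀ j, ∑ s, y j s = r) : r = 0 := by
  classical
  let f : I → ZMod 3 := fun i => if h : ∃ z : J × Fin 6, var z.1 z.2 = i then y h.choose.1 h.choose.2 else 0
  have hf : ∀ j s, f (var j s) = y j s := fun j s => by
    have h : ∃ z : J × Fin 6, var z.1 z.2 = var j s := ⟨(j, s), rfl⟩
    simp only [f, dif_pos h]
    exact h1 _ _ _ _ h.choose_spec
  calc r = ∑ j, ∑ s, c j * y j s := by
        simp only [← Finset.mul_sum, h2]
        rw [← Finset.sum_mul, hc', one_mul]
    _ = ∑ j, ∑ s, ∑ i, (if var j s = i then c j else 0) * f i := by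
        refine Finset.sum_congr rfl fun j _ => Finset.sum_congr rfl fun s _ => ?_
        simp [hf]
    _ = ∑ i, (∑ j, ∑ s, (if var j s = i then c j else 0)) * f i := by
        simp only [Finset.sum_mul]
        rw [Finset.sum_comm (s := Finset.univ (α := I))]
        exact Finset.sum_congr rfl fun j _ => Finset.sum_comm
    _ = 0 := by simp [hc]

end Pool.Agent.Work.MP_3b70de_al
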